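import Mathlib

set_option autoImplicit false

namespace Pool.Agent.Helper53.FF

open Polynomial IntermediateField

/-- `X ^ (2 ^ s) + a ^ (2 ^ s)` is irreducible over the rational numbers -/
lemma irr_two_pow (s : ℕ) {a : ℚ} (ha : a ≠ 0) :
    Irreducible (X ^ (2 ^ s) - C (-(a ^ (2 ^ s))) : ℚ[X]) := by
  have h1 : cyclotomic (2 ^ (s + 1)) ℚ = X ^ (2 ^ s) + 1 := by
    rw [cyclotomic_prime_pow_eq_geom_sum Nat.prime_two]
    simp [Finset.sum_range_succ]
    ring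
  have h2 : Irreducible (X ^ (2 ^ s) + 1 : ℚ[X]) := by
    rw [← h1]
    exact cyclotomic.irreducible_rat (by positivity)
  have hinv : a⁻¹ ≠ 0 := inv_ne_zero ha
  let _ : Invertible (a⁻¹) := invertibleOfNonzero hinv
  have h3 : Irreducible ((algEquivCMulXAddC (a⁻¹) (0 : ℚ)) (X ^ (2 ^ s) + 1 : ℚ[X])) :=
    (MulEquiv.irreducible_iff (algEquivCMulXAddC (a⁻¹) (0 : ℚ)).toMulEquiv).2 h2
  have h4 : (X ^ (2 ^ s) - C (-(a ^ (2 ^ s))) : ℚ[X]) =
      C (a ^ (2 ^ s)) * (algEquivCMulXAddC (a⁻¹) (0 : ℚ)) (X ^ (2 ^ s) + 1 : ℚ[X]) := by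
    simp only [map_add, map_pow, map_one, algEquivCMulXAddC_apply, aeval_X, C_0, add_zero]
    rw [mul_pow, mul_add, ← C_pow, ← mul_assoc, ← C_pow, ← C_mul]
    rw [← mul_pow, mul_inv_cancel₀ ha]
    simp [sub_eq_add_neg]
  rw [h4]
  exact (irreducible_isUnit_mul (isUnit_C.2 (pow_ne_zero _ ha).isUnit)).2 h3

/-- a rational number whose `p`-th power is `± 2 ^ n` -/
lemma dvd_of_pow {p n : ℕ} {r : ℚ} (h : |r| ^ p = 2 ^ n) : p ∣ n := by
  have h1 : padicValRat 2 (|r| ^ p) = padicValRat 2 ((2 : ℚ) ^ n) := by rw [h]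
  rw [padicValRat.pow, padicValRat.pow] at h1
  have h2 : padicValRat 2 (2 : ℚ) = 1 := by
    have := padicValRat.self (p := 2) (by norm_num)
    exact_mod_cast this
  rw [h2, mul_one] at h1
  have h3 : (p : ℤ) ∣ n := ⟨_, h1.symm⟩
  exact_mod_cast h3

/-- going up by an odd exponent -/
theorem irr_odd {K : Type} [Field K] {N w : ℕ} {a : K} (hN : N ≠ 0)
    (h : Irreducible (X ^ N - C a : K[X])) (hw : Odd w)
    (hno : ∀ p : ℕ, p.Prime → p ∣ w → ∀ r : K, r ^ p ≠ (-1) ^ N * (-a)) :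
    Irreducible (X ^ (w * N) - C a : K[X]) := by
  apply X_pow_mul_sub_C_irreducible h
  intro E _ _ x hx
  have hint : IsIntegral K x := not_not.mp fun h ↦ by
    have h4 := congr_arg degree (hx.symm.trans (dif_neg h))
    rw [degree_X_pow_sub_C (by omega), degree_zero] at h4
    exact WithBot.natCast_ne_bot _ h4
  apply X_pow_sub_C_irreducible_of_odd hw
  intro p hp hpw b hb
  apply hno p hp hpw (Algebra.norm K b)
  rw [← map_pow, hb, ← adjoin.powerBasis_gen hint,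
    Algebra.PowerBasis.norm_gen_eq_coeff_zero_minpoly]
  have hdeg : (adjoin.powerBasis hint).dim = N := by
    rw [adjoin.powerBasis_dim, hx, natDegree_X_pow_sub_C]
  rw [hdeg, adjoin.powerBasis_gen, minpoly_gen, hx]
  simp [coeff_X_pow, hN.symm]

/-- `X ^ q + 2 ^ (2 ^ m)` is irreducible for `1 ≤ q < 2 ^ m` -/
theorem irr_fermat {m q : ℕ} (hq : 1 ≤ q) (hqm : q < 2 ^ m) :
    Irreducible (X ^ q - C (-(2 ^ (2 ^ m))) : ℚ[X]) := by
  obtain ⟨s, w, hw, rfl⟩ := Nat.exists_eq_two_pow_mul_odd (by omega : q ≠ 0)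
  have hw1 : 1 ≤ w := hw.pos
  have hsm : s ≤ m := by
    have h1 : 2 ^ s < 2 ^ m := by
      calc 2 ^ s = 2 ^ s * 1 := by ring
        _ ≤ 2 ^ s * w := Nat.mul_le_mul_left _ hw1
        _ < 2 ^ m := hqm
    exact ((Nat.pow_lt_pow_iff_right (by norm_num)).1 h1).le
  have h2 : ((2 : ℚ) ^ (2 ^ (m - s))) ^ (2 ^ s) = 2 ^ (2 ^ m) := by
    rw [← pow_mul, ← pow_add]; congr 2; omega
  have h3 := irr_two_pow s (a := (2 : ℚ) ^ (2 ^ (m - s))) (by positivity)
  rw [h2] at h3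
  rw [mul_comm]
  apply irr_odd (by positivity) h3 hw
  intro p hp hpw r hr
  have h6 : |r| ^ p = 2 ^ (2 ^ m) := by
    rw [← abs_pow, hr, abs_mul, abs_pow, abs_neg, abs_one, one_pow, one_mul, neg_neg]
    exact abs_of_pos (by positivity)
  have h7 := dvd_of_pow h6
  have h8 : p ∣ 2 := hp.dvd_of_dvd_pow h7
  have h9 : p = 2 := (Nat.prime_dvd_prime_iff_eq hp Nat.prime_two).1 h8
  subst h9
  exact (Nat.not_even_iff_odd.2 hw) (even_iff_two_dvd.2 hpw)

end Pool.Agent.Helper53.FF
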