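import Mathlib
import Pool.Agent.Helper53.FF.Irr

set_option autoImplicit false

namespace Pool.Agent.Helper53.FF

open Polynomial

/-- a rational number whose `p`-th power is `b ^ n`, for `p` and `n` coprime -/
lemma pow_of_pow {p n b : ℕ} (hp : p ≠ 0) (hpn : p.Coprime n) {r : ℚ} (hr : 0 ≤ r)
    (h : r ^ p = (b : ℚ) ^ n) : ∃ c : ℕ, c ^ p = b := by
  have hden : r.den ^ p = 1 := by
    have h1 : (r ^ p).den = r.den ^ p := Rat.den_pow r p
    rw [← h1, h]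
    have h2 : ((b : ℚ) ^ n) = ((b ^ n : ℕ) : ℚ) := by push_cast; rfl
    rw [h2, Rat.den_natCast]
  have hden1 : r.den = 1 := by
    rcases (Nat.pow_eq_one.1 hden) with h1 | h1
    · exact h1
    · exact absurd h1 hp
  have hr2 : r = ((r.num.natAbs : ℕ) : ℚ) := by
    have h1 : (r.num : ℚ) = r := Rat.coe_int_num_of_den_eq_one hden1
    have h2 : (0 : ℤ) ≤ r.num := Rat.num_nonneg.2 hr
    conv_lhs => rw [← h1]
    have h3 : ((r.num.natAbs : ℕ) : ℤ) = r.num := Int.natAbs_of_nonneg h2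
    rw [← h3]
    simp
  rw [hr2] at h
  have h4 : r.num.natAbs ^ p = b ^ n := by exact_mod_cast h
  obtain ⟨c, hc1, hc2⟩ := Nat.exists_eq_pow_of_exponent_coprime_of_pow_eq_pow hpn h4
  exact ⟨c, hc2.symm⟩

/-- `X ^ q + b ^ (- 2 ^ m)` is irreducible for `1 ≤ q < 2 ^ m`, if `b` is not an odd power -/
theorem irr_inv {m q b : ℕ} (hb : 2 ≤ b) (hodd : ∀ p : ℕ, p.Prime → p ≠ 2 → ∀ c : ℕ, c ^ p ≠ b)
    (hq : 1 ≤ q) (hqm : q < 2 ^ m) :
    Irreducible (X ^ q - C (-(((b : ℚ)⁻¹) ^ (2 ^ m))) : ℚ[X]) := by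
  have hb0 : (b : ℚ) ≠ 0 := by exact_mod_cast (by omega : b ≠ 0)
  have hbpos : (0 : ℚ) < (b : ℚ)⁻¹ := by
    have : (0 : ℚ) < b := by exact_mod_cast (by omega : 0 < b)
    positivity
  obtain ⟨s, w, hw, rfl⟩ := Nat.exists_eq_two_pow_mul_odd (by omega : q ≠ 0)
  have hw1 : 1 ≤ w := hw.pos
  have hsm : s ≤ m := by
    have h1 : 2 ^ s < 2 ^ m := by
      calc 2 ^ s = 2 ^ s * 1 := by ring
        _ ≤ 2 ^ s * w := Nat.mul_le_mul_left _ hw1
        _ < 2 ^ m := hqm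
    exact ((Nat.pow_lt_pow_iff_right (by norm_num)).1 h1).le
  have h2 : (((b : ℚ)⁻¹) ^ (2 ^ (m - s))) ^ (2 ^ s) = ((b : ℚ)⁻¹) ^ (2 ^ m) := by
    rw [← pow_mul, ← pow_add]; congr 2; omega
  have h3 := irr_two_pow s (a := ((b : ℚ)⁻¹) ^ (2 ^ (m - s))) (by positivity)
  rw [h2] at h3
  rw [mul_comm]
  apply irr_odd (by positivity) h3 hw
  intro p hp hpw r hr
  have hp2 : p ≠ 2 := by
    rintro rfl
    exact (Nat.not_even_iff_odd.2 hw) (even_iff_two_dvd.2 hpw)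
  have h6 : |r| ^ p = ((b : ℚ)⁻¹) ^ (2 ^ m) := by
    rw [← abs_pow, hr, abs_mul, abs_pow, abs_neg, abs_one, one_pow, one_mul, neg_neg]
    exact abs_of_pos (by positivity)
  have h7 : (|r|⁻¹) ^ p = (b : ℚ) ^ (2 ^ m) := by
    rw [inv_pow, h6, inv_pow, inv_inv]
  have hcop : p.Coprime (2 ^ m) := by
    apply Nat.Coprime.pow_right
    exact (Nat.coprime_primes hp Nat.prime_two).2 hp2
  obtain ⟨c, hc⟩ := pow_of_pow hp.ne_zero hcop (by positivity) h7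
  exact hodd p hp hp2 c hc

end Pool.Agent.Helper53.FF
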