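import Mathlib

set_option autoImplicit false

namespace Pool.Agent.Helper53.FF

open Finset

/-- the part of the sum with the label `s` and exponents below `h` -/
def part {ι : Type} [DecidableEq ι] (I : Finset ι) (e : ι → ℕ) (c : ι → ℤ) (lab : ι → ℕ) (b : ℕ)
    (s h : ℕ) : ℤ :=
  ∑ i ∈ I.filter (fun i => lab i = s ∧ e i < h), c i * (b : ℤ) ^ (e i)

/-- **Separation.** A vanishing sum of terms `c b ^ e` splits according to any labels which are equal
for exponents at distance at most `g`. -/
theorem sep {ι : Type} [DecidableEq ι] (I : Finset ι) (e : ι → ℕ) (c : ι → ℤ) (lab : ι → ℕ)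
    {b g B : ℕ} (hb : 2 ≤ b) (hB : I.card * B < b ^ g) (hc : ∀ i ∈ I, |c i| ≤ B)
    (hlab : ∀ i ∈ I, ∀ j ∈ I, e i ≤ e j → e j ≤ e i + g → lab i = lab j)
    (h0 : ∑ i ∈ I, c i * (b : ℤ) ^ (e i) = 0) (s : ℕ) :
    ∑ i ∈ I.filter (fun i => lab i = s), c i * (b : ℤ) ^ (e i) = 0 := by
  -- low parts vanish at gaps
  have low : ∀ h : ℕ, (∀ i ∈ I, e i < h → e i + g < h) →
      ∑ i ∈ I.filter (fun i => e i < h), c i * (b : ℤ) ^ (e i) = 0 := by
    intro h hh
    have hsplit := Finset.sum_filter_add_sum_filter_not I (fun i => e i < h)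
      (fun i => c i * (b : ℤ) ^ (e i))
    rw [h0] at hsplit
    apply Int.eq_zero_of_abs_lt_dvd (m := (b : ℤ) ^ h)
    · have h1 : (b : ℤ) ^ h ∣ ∑ i ∈ I.filter (fun i => ¬ e i < h), c i * (b : ℤ) ^ (e i) := by
        apply Finset.dvd_sum
        intro i hi
        rw [Finset.mem_filter] at hi
        exact Dvd.dvd.mul_left (pow_dvd_pow _ (by omega)) _
      have h2 : ∑ i ∈ I.filter (fun i => e i < h), c i * (b : ℤ) ^ (e i) =
          - ∑ i ∈ I.filter (fun i => ¬ e i < h), c i * (b : ℤ) ^ (e i) := by linarith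
      rw [h2]
      exact (dvd_neg).2 h1
    · rcases (I.filter (fun i => e i < h)).eq_empty_or_nonempty with hemp | hne
      · rw [hemp, Finset.sum_empty, abs_zero]
        positivity
      · have hpos : (0 : ℤ) < (b : ℤ) ^ g := by positivity
        have hbz : (1 : ℤ) ≤ b := by exact_mod_cast (by omega : 1 ≤ b)
        have h1 : (b : ℤ) ^ g * |∑ i ∈ I.filter (fun i => e i < h), c i * (b : ℤ) ^ (e i)| <
            (b : ℤ) ^ g * (b : ℤ) ^ h := by
          calc (b : ℤ) ^ g * |∑ i ∈ I.filter (fun i => e i < h), c i * (b : ℤ) ^ (e i)|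
              ≤ (b : ℤ) ^ g * ∑ i ∈ I.filter (fun i => e i < h), |c i * (b : ℤ) ^ (e i)| :=
                mul_le_mul_of_nonneg_left (Finset.abs_sum_le_sum_abs _ _) hpos.le
            _ = ∑ i ∈ I.filter (fun i => e i < h), (b : ℤ) ^ g * |c i * (b : ℤ) ^ (e i)| := by
                rw [Finset.mul_sum]
            _ ≤ ∑ i ∈ I.filter (fun i => e i < h), (B : ℤ) * (b : ℤ) ^ h := by
                apply Finset.sum_le_sum
                intro i hi
                rw [Finset.mem_filter] at hi
                rw [abs_mul, abs_of_pos (by positivity : (0 : ℤ) < (b : ℤ) ^ (e i))]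
                calc (b : ℤ) ^ g * (|c i| * (b : ℤ) ^ (e i)) = |c i| * (b : ℤ) ^ (e i + g) := by
                      rw [pow_add]; ring
                  _ ≤ B * (b : ℤ) ^ h := by
                      apply mul_le_mul (hc i hi.1) _ (by positivity) (by positivity)
                      exact pow_le_pow_right₀ hbz (hh i hi.1 hi.2).le
            _ = ((I.filter (fun i => e i < h)).card : ℤ) * ((B : ℤ) * (b : ℤ) ^ h) := by
                rw [Finset.sum_const, nsmul_eq_mul]
            _ ≤ (I.card : ℤ) * ((B : ℤ) * (b : ℤ) ^ h) := by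
                apply mul_le_mul_of_nonneg_right _ (by positivity)
                exact_mod_cast Finset.card_filter_le _ _
            _ = ((I.card * B : ℕ) : ℤ) * (b : ℤ) ^ h := by push_cast; ring
            _ < (b : ℤ) ^ g * (b : ℤ) ^ h := by
                apply mul_lt_mul_of_pos_right _ (by positivity)
                exact_mod_cast hB
        exact lt_of_mul_lt_mul_left h1 hpos.le
  -- the parts with labels
  have shrink : ∀ s h : ℕ, (∀ i ∈ I, lab i = s → e i < h → e i + g < h) →
      part I e c lab b s h ≠ 0 → ∃ i ∈ I, lab i = s ∧ e i + g < h ∧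
        (∀ j ∈ I, lab j = s → e j < h → e j ≤ e i) ∧
        part I e c lab b s h = part I e c lab b s (e i + g + 1) := by
    intro s h hs hne
    have hnonempty : (I.filter (fun i => lab i = s ∧ e i < h)).Nonempty := by
      rw [Finset.nonempty_iff_ne_empty]
      intro hemp
      apply hne
      unfold part
      rw [hemp, Finset.sum_empty]
    obtain ⟨i, hi, hmax⟩ := Finset.exists_max_image _ e hnonempty
    rw [Finset.mem_filter] at hi
    have hmax' : ∀ j ∈ I, lab j = s → e j < h → e j ≤ e i := fun j hj h1 h2 =>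
      hmax j (Finset.mem_filter.2 ⟨hj, h1, h2⟩)
    have hi2 := hs i hi.1 hi.2.1 hi.2.2
    refine ⟨i, hi.1, hi.2.1, hi2, hmax', ?_⟩
    unfold part
    congr 1
    apply Finset.filter_congr
    intro j hj
    constructor
    · rintro ⟨h1, h2⟩
      exact ⟨h1, by have := hmax' j hj h1 h2; omega⟩
    · rintro ⟨h1, h2⟩
      exact ⟨h1, by omega⟩
  have main : ∀ h s : ℕ, (∀ i ∈ I, lab i = s → e i < h → e i + g < h) →
      part I e c lab b s h = 0 := by
    intro h
    induction h using Nat.strong_induction_on with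
    | _ h ih =>
      intro s hs
      by_contra hne
      obtain ⟨i, hi, his, hig, hmax, heq⟩ := shrink s h hs hne
      rcases Nat.lt_or_ge (e i + g + 1) h with hlt | hge
      · apply hne
        rw [heq]
        apply ih _ hlt
        intro j hj hjs hje
        have := hmax j hj hjs (by omega)
        omega
      · have hh : h = e i + g + 1 := by omega
        have hall : ∀ j ∈ I, e j < h → e j + g < h := by
          intro j hj hje
          by_contra hcon
          have h1 : lab i = lab j := hlab i hi j hj (by omega) (by omega)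
          have h2 := hs j hj (by rw [← h1, his]) hje
          omega
        have htot := low h hall
        have hfib : ∑ i ∈ I.filter (fun i => e i < h), c i * (b : ℤ) ^ (e i) =
            ∑ s' ∈ I.image lab, part I e c lab b s' h := by
          rw [← Finset.sum_fiberwise_of_maps_to (s := I.filter (fun i => e i < h))
            (t := I.image lab) (g := lab)
            (fun j hj => Finset.mem_image_of_mem _ (Finset.mem_filter.1 hj).1)]
          apply Finset.sum_congr rfl
          intro s' _
          unfold part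
          rw [Finset.filter_filter]
          congr 1
          apply Finset.filter_congr
          intro j _
          tauto
        rw [hfib] at htot
        have hsin : s ∈ I.image lab := Finset.mem_image.2 ⟨i, hi, his⟩
        rw [Finset.sum_eq_single_of_mem s hsin] at htot
        · exact hne htot
        · intro s' _ hs'
          by_contra hne'
          obtain ⟨j, hj, hjs, hjg, hmax', heq'⟩ :=
            shrink s' h (fun j hj _ hje => hall j hj hje) hne'
          apply hne'
          rw [heq']
          have hji : e j + g < e i := by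
            by_contra hcon
            have h1 : lab j = lab i := hlab j hj i hi (by omega) (by omega)
            rw [hjs, his] at h1
            exact hs' h1
          apply ih _ (by omega)
          intro l hl hls hle
          have := hmax' l hl hls (by omega)
          omega
  obtain ⟨h, hh⟩ : ∃ h, ∀ i ∈ I, e i + g < h :=
    ⟨(I.sup e) + g + 1, fun i hi => by have := Finset.le_sup (f := e) hi; omega⟩
  have h1 := main h s (fun i hi _ _ => hh i hi)
  unfold part at h1
  rw [← h1]
  congr 1
  apply Finset.filter_congr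
  intro i hi
  have := hh i hi
  constructor
  · intro h2; exact ⟨h2, by omega⟩
  · intro h2; exact h2.1

/-- **Simultaneous approximation** (Dirichlet) in integers. -/
theorem dirichlet (U : Finset ℕ) (n : ℕ) (hn : 1 ≤ n) :
    ∃ (q : ℕ) (α : ℕ → ℕ), 1 ≤ q ∧ q ≤ 5 ^ U.card ∧
      ∀ i ∈ U, |5 * ((q : ℤ) * i - n * α i)| < n := by
  classical
  let f : ℕ → (U → Fin 5) := fun q i => ⟨5 * ((q * i) % n) / n, by
    rw [Nat.div_lt_iff_lt_mul (by omega)]
    have := Nat.mod_lt (q * i) (by omega : n > 0)
    nlinarith⟩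
  have hcard : Fintype.card (U → Fin 5) < (Finset.range (5 ^ U.card + 1)).card := by
    rw [Finset.card_range]
    simp
  obtain ⟨q₁, hq₁, q₂, hq₂, hne, hf⟩ := Finset.exists_ne_map_eq_of_card_lt_of_maps_to
    (s := Finset.range (5 ^ U.card + 1)) (t := (Finset.univ : Finset (U → Fin 5)))
    (by rw [Finset.card_univ]; exact hcard) (f := f) (fun _ _ => Finset.mem_univ _)
  wlog hlt : q₁ < q₂ generalizing q₁ q₂
  · exact this q₂ hq₂ q₁ hq₁ (Ne.symm hne) hf.symm (by omega)
  rw [Finset.mem_range] at hq₁ hq₂
  refine ⟨q₂ - q₁, fun i => (q₂ * i) / n - (q₁ * i) / n, by omega, by omega, ?_⟩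
  intro i hi
  have h1 := congrFun hf ⟨i, hi⟩
  have h2 : 5 * ((q₁ * i) % n) / n = 5 * ((q₂ * i) % n) / n := by
    have := congrArg Fin.val h1
    exact this
  have hmono : (q₁ * i) / n ≤ (q₂ * i) / n := Nat.div_le_div_right (Nat.mul_le_mul_right _ hlt.le)
  have e1 := Nat.div_add_mod (q₁ * i) n
  have e2 := Nat.div_add_mod (q₂ * i) n
  have e3 := Nat.div_add_mod (5 * ((q₁ * i) % n)) n
  have e4 := Nat.div_add_mod (5 * ((q₂ * i) % n)) n
  have e5 := Nat.mod_lt (5 * ((q₁ * i) % n)) (by omega : n > 0)
  have e6 := Nat.mod_lt (5 * ((q₂ * i) % n)) (by omega : n > 0)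
  rw [h2] at e3
  zify at e1 e2 e3 e4 e5 e6
  push_cast [Nat.cast_sub hlt.le, Nat.cast_sub hmono]
  have e7 : (5 : ℤ) * (((q₂ : ℤ) - q₁) * i - n * ((q₂ * i : ℤ) / n - (q₁ * i : ℤ) / n)) =
      5 * ((q₂ * i : ℤ) % n) - 5 * ((q₁ * i : ℤ) % n) := by linarith
  rw [e7, abs_lt]
  have e8 : (0 : ℤ) ≤ (5 * ((q₁ * i : ℤ) % n)) % n := Int.emod_nonneg _ (by omega)
  have e9 : (0 : ℤ) ≤ (5 * ((q₂ * i : ℤ) % n)) % n := Int.emod_nonneg _ (by omega)
  constructor <;> linarith

end Pool.Agent.Helper53.FF
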