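import Mathlib
import Pool.Agent.Helper53.CD.Defs
import Pool.Agent.Helper53.FF.Sep

set_option autoImplicit false

namespace Pool.Agent.Helper53.FF

open Finset Polynomial Pool.Agent.Helper53.CD

lemma eq_zero_of_mul_lt {n z : ℤ} (h : |n * z| < n) : z = 0 := by
  by_contra hz
  have h1 : 1 ≤ |z| := Int.one_le_abs hz
  have h0 : 0 < n := lt_of_le_of_lt (abs_nonneg _) h
  rw [abs_mul, abs_of_pos h0] at h
  nlinarith

/-- **Lifting** a product of sparse integers to a product of polynomials. -/
theorem lift {b k l H n g B : ℕ} {x y U V : ℤ} (hb : 2 ≤ b) (hx : Few b k H x) (hy : Few b l H y)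
    (hxy : x * y = U * (b : ℤ) ^ n + V) (hH : H * H ≤ B) (hU : |U| ≤ B) (hV : |V| ≤ B)
    (hB : (k * l + 2) * B < b ^ g) (hn : 5 ^ (k + l + 1) * g < n) :
    ∃ q : ℕ, 1 ≤ q ∧ q ≤ 5 ^ (k + l) ∧ ∃ P Q : ℤ[X], P.eval 1 = x ∧ Q.eval 1 = y ∧
      P * Q = C (U * (b : ℤ) ^ n) * X ^ q + C V := by
  classical
  obtain ⟨s, c, hs, hc, hxs⟩ := hx
  obtain ⟨t, d, ht, hd, hyt⟩ := hy
  obtain ⟨q, α, hq1, hq2, hα⟩ := dirichlet (s ∪ t) n (by omega)
  have hcardU : (s ∪ t).card ≤ k + l := (Finset.card_union_le _ _).trans (by omega)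
  have hq3 : q ≤ 5 ^ (k + l) := hq2.trans (Nat.pow_le_pow_right (by norm_num) hcardU)
  have hqg : 5 * q * g < n := by
    calc 5 * q * g ≤ 5 * 5 ^ (k + l) * g := by gcongr
      _ = 5 ^ (k + l + 1) * g := by rw [pow_succ]; ring
      _ < n := hn
  have hqgz : 5 * (q : ℤ) * g < n := by exact_mod_cast hqg
  have hgz : (g : ℤ) ≤ 5 * (q : ℤ) * g := by
    have h1 : (1 : ℤ) ≤ 5 * q := by
      have : (1 : ℤ) ≤ q := by exact_mod_cast hq1
      linarith
    have h2 : (0 : ℤ) ≤ g := by positivity
    nlinarith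
  refine ⟨q, hq1, hq3, ∑ i ∈ s, C (c i * (b : ℤ) ^ i) * X ^ (α i),
    ∑ j ∈ t, C (d j * (b : ℤ) ^ j) * X ^ (α j), ?_, ?_, ?_⟩
  · rw [eval_finsetSum, hxs]
    apply Finset.sum_congr rfl
    intro i _
    simp
  · rw [eval_finsetSum, hyt]
    apply Finset.sum_congr rfl
    intro i _
    simp
  · -- the terms of the relation
    let I : Finset ((ℕ × ℕ) ⊕ Bool) := (s ×ˢ t).disjSum Finset.univ
    let e : (ℕ × ℕ) ⊕ Bool → ℕ := Sum.elim (fun p => p.1 + p.2) (fun z => if z then 0 else n)
    let cc : (ℕ × ℕ) ⊕ Bool → ℤ := Sum.elim (fun p => c p.1 * d p.2) (fun z => if z then -V else -U)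
    let lab : (ℕ × ℕ) ⊕ Bool → ℕ := Sum.elim (fun p => α p.1 + α p.2) (fun z => if z then 0 else q)
    have hBI : I.card * B < b ^ g := by
      have h1 : I.card ≤ k * l + 2 := by
        simp only [I]
        rw [Finset.card_disjSum, Finset.card_product]
        have h2 : s.card * t.card ≤ k * l := Nat.mul_le_mul hs ht
        simp
        omega
      exact lt_of_le_of_lt (Nat.mul_le_mul_right _ h1) hB
    have hcI : ∀ i ∈ I, |cc i| ≤ B := by
      rintro (p | z) hi
      · simp only [I, Finset.inl_mem_disjSum, Finset.mem_product] at hi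
        simp only [cc, Sum.elim_inl]
        rw [abs_mul]
        calc |c p.1| * |d p.2| ≤ (H : ℤ) * H :=
              mul_le_mul (hc _ hi.1) (hd _ hi.2) (abs_nonneg _) (by positivity)
          _ ≤ B := by exact_mod_cast hH
      · simp only [cc, Sum.elim_inr]
        split_ifs
        · rw [abs_neg]; exact hV
        · rw [abs_neg]; exact hU
    -- approximate labels
    have happ : ∀ i ∈ I, |5 * ((q : ℤ) * e i - n * lab i)| ≤ 2 * (n - 1) ∧ True := by
      rintro (p | z) hi
      · simp only [I, Finset.inl_mem_disjSum, Finset.mem_product] at hi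
        have h1 := hα p.1 (Finset.mem_union_left _ hi.1)
        have h2 := hα p.2 (Finset.mem_union_right _ hi.2)
        simp only [e, lab, Sum.elim_inl]
        push_cast
        rw [abs_lt] at h1 h2
        rw [abs_le]
        refine ⟨⟨?_, ?_⟩, trivial⟩ <;> nlinarith
      · have hn1 : (1 : ℤ) ≤ n := by
          have : 1 ≤ n := by omega
          exact_mod_cast this
        simp only [e, lab, Sum.elim_inr]
        split_ifs
        · simp only [Nat.cast_zero, mul_zero, sub_zero, abs_zero]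
          exact ⟨by linarith, trivial⟩
        · have : (5 : ℤ) * ((q : ℤ) * n - n * q) = 0 := by ring
          rw [this, abs_zero]
          exact ⟨by linarith, trivial⟩
    have hlab : ∀ i ∈ I, ∀ j ∈ I, e i ≤ e j → e j ≤ e i + g → lab i = lab j := by
      intro i hi j hj h1 h2
      have hi' := (happ i hi).1
      have hj' := (happ j hj).1
      rw [abs_le] at hi' hj'
      have h3 : |(n : ℤ) * ((lab j : ℤ) - lab i)| < n := by
        have e1 : (0 : ℤ) ≤ (e j : ℤ) - e i := by
          have : (e i : ℤ) ≤ e j := by exact_mod_cast h1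
          linarith
        have e2 : (e j : ℤ) - e i ≤ g := by
          have : (e j : ℤ) ≤ e i + g := by exact_mod_cast h2
          linarith
        have e3 : (0 : ℤ) ≤ q * ((e j : ℤ) - e i) := mul_nonneg (by positivity) e1
        have e4 : (q : ℤ) * ((e j : ℤ) - e i) ≤ q * g :=
          mul_le_mul_of_nonneg_left e2 (by positivity)
        rw [abs_lt]
        constructor <;> nlinarith
      have h4 := eq_zero_of_mul_lt h3
      have h5 : (lab j : ℤ) = lab i := by linarith
      exact_mod_cast h5.symm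
    have h0 : ∑ i ∈ I, cc i * (b : ℤ) ^ (e i) = 0 := by
      simp only [I]
      rw [Finset.sum_disjSum]
      simp only [cc, e, Sum.elim_inl, Sum.elim_inr, Fintype.univ_bool]
      rw [Finset.sum_pair (by decide)]
      have h1 : ∑ p ∈ s ×ˢ t, c p.1 * d p.2 * (b : ℤ) ^ (p.1 + p.2) = x * y := by
        rw [hxs, hyt, Finset.sum_mul_sum, ← Finset.sum_product']
        apply Finset.sum_congr rfl
        intro p _
        rw [pow_add]; ring
      rw [h1, hxy]
      simp
    have hsep := sep I e cc lab hb hBI hcI hlab h0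
    ext m
    have hm := hsep m
    have hL : (∑ i ∈ s, C (c i * (b : ℤ) ^ i) * X ^ (α i) : ℤ[X]) *
        ∑ j ∈ t, C (d j * (b : ℤ) ^ j) * X ^ (α j) =
        ∑ p ∈ s ×ˢ t, C (c p.1 * d p.2 * (b : ℤ) ^ (p.1 + p.2)) * X ^ (α p.1 + α p.2) := by
      rw [Finset.sum_mul_sum, ← Finset.sum_product']
      apply Finset.sum_congr rfl
      intro p _
      rw [pow_add, pow_add]
      simp only [map_mul]
      ring
    rw [hL, finsetSum_coeff, coeff_add, coeff_C_mul_X_pow, coeff_C]
    have hcoef : ∑ p ∈ s ×ˢ t,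
        (C (c p.1 * d p.2 * (b : ℤ) ^ (p.1 + p.2)) * X ^ (α p.1 + α p.2) : ℤ[X]).coeff m =
        ∑ p ∈ (s ×ˢ t).filter (fun p => α p.1 + α p.2 = m), c p.1 * d p.2 * (b : ℤ) ^ (p.1 + p.2) := by
      rw [Finset.sum_filter]
      apply Finset.sum_congr rfl
      intro p _
      rw [coeff_C_mul_X_pow]
      by_cases h : m = α p.1 + α p.2
      · rw [if_pos h, if_pos h.symm]
      · rw [if_neg h, if_neg (fun h' => h h'.symm)]
    rw [hcoef]
    have hm2 : (∑ p ∈ s ×ˢ t,
        if α p.1 + α p.2 = m then c p.1 * d p.2 * (b : ℤ) ^ (p.1 + p.2) else 0) +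
        ((if 0 = m then -V else 0) + (if q = m then -U * (b : ℤ) ^ n else 0)) = 0 := by
      rw [Finset.sum_filter] at hm
      have hm3 := Finset.sum_disjSum (s ×ˢ t) (Finset.univ : Finset Bool)
        (fun i => if lab i = m then cc i * (b : ℤ) ^ (e i) else 0)
      have hm4 : (∑ i ∈ (s ×ˢ t).disjSum (Finset.univ : Finset Bool),
          if lab i = m then cc i * (b : ℤ) ^ (e i) else 0) = 0 := hm
      rw [hm3, Fintype.univ_bool, Finset.sum_pair (by decide)] at hm4
      simp [cc, e, lab] at hm4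
      have e9 : (-U * (b : ℤ) ^ n) = -(U * (b : ℤ) ^ n) := by ring
      rw [e9]
      convert hm4
    rw [← Finset.sum_filter] at hm2
    by_cases h1 : m = q
    · by_cases h2 : m = 0
      · omega
      · rw [if_pos h1, if_neg h2]
        rw [if_neg (fun h => h2 h.symm), if_pos h1.symm] at hm2
        linarith
    · by_cases h2 : m = 0
      · rw [if_neg h1, if_pos h2]
        rw [if_pos h2.symm, if_neg (fun h => h1 h.symm)] at hm2
        linarith
      · rw [if_neg h1, if_neg h2]
        rw [if_neg (fun h => h2 h.symm), if_neg (fun h => h1 h.symm)] at hm2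
        linarith

end Pool.Agent.Helper53.FF
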