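import Mathlib
import Pool.Agent.Helper53.FF.Lift
import Pool.Agent.Helper53.FF.IrrB

set_option autoImplicit false

namespace Pool.Agent.Helper53.FF

open Polynomial Pool.Agent.Helper53.CD

/-- a constant factor over the rational numbers is a constant factor -/
lemma const_factor {P Q : ℤ[X]} {D E x x' y : ℤ} {q : ℕ} (hq : 1 ≤ q) (hE : E ≠ 0)
    (hD : D = E * y) (hP : (P.map (Int.castRingHom ℚ)).natDegree = 0) (hP1 : P.eval 1 = E * x)
    (hPQ : P * Q = C x' * X ^ q + C D) : x ∣ y := by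
  have h1 : P.natDegree = 0 := by
    rw [← hP, natDegree_map_eq_of_injective]
    exact (Int.castRingHom ℚ).injective_int
  have h2 : P = C (P.coeff 0) := eq_C_of_natDegree_eq_zero h1
  have h3 : P.coeff 0 = E * x := by
    rw [← hP1]
    conv_rhs => rw [h2]
    simp
  have h4 := congrArg (fun f => coeff f 0) hPQ
  simp only [mul_coeff_zero, coeff_add, coeff_X_pow, coeff_C_zero] at h4
  rw [if_neg (by omega), mul_zero, zero_add, h3, hD, mul_assoc] at h4
  exact ⟨Q.coeff 0, (mul_left_cancel₀ hE h4).symm⟩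

/-- **Sparse factorizations of generalised Fermat numbers.** -/
theorem fermat {b m k l H g : ℕ} {x y D₁ D₂ : ℤ} (hb : 2 ≤ b)
    (hodd : ∀ p : ℕ, p.Prime → p ≠ 2 → ∀ c : ℕ, c ^ p ≠ b)
    (hD₁ : 1 ≤ D₁) (hD₂ : 1 ≤ D₂) (hx : Few b k H (D₁ * x)) (hy : Few b l H (D₂ * y))
    (hxy : x * y = (b : ℤ) ^ (2 ^ m) + 1)
    (hH : (k * l + 2) * (H * H) < b ^ g) (hD : ((k * l + 2 : ℕ) : ℤ) * (D₁ * D₂) < (b : ℤ) ^ g) :
    x ∣ D₂ ∨ y ∣ D₁ ∨ 2 ^ m ≤ 5 ^ (k + l + 1) * g := by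
  by_cases hn : 2 ^ m ≤ 5 ^ (k + l + 1) * g
  · exact Or.inr (Or.inr hn)
  push Not at hn
  have hD1 : 1 ≤ D₁ * D₂ := by nlinarith
  obtain ⟨E, hE⟩ : ∃ E : ℕ, (E : ℤ) = D₁ * D₂ := ⟨(D₁ * D₂).toNat, Int.toNat_of_nonneg (by linarith)⟩
  have hE2 : (k * l + 2) * E < b ^ g := by
    rw [← hE] at hD
    exact_mod_cast hD
  have hmax : (k * l + 2) * max (H * H) E < b ^ g := by
    rcases le_total (H * H) E with h | h
    · rw [max_eq_right h]; exact hE2
    · rw [max_eq_left h]; exact hH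
  have hg : 1 ≤ g := by
    by_contra hg
    have h0 : g = 0 := by omega
    rw [h0, pow_zero] at hD
    have : (0 : ℤ) ≤ ((k * l : ℕ) : ℤ) := by positivity
    push_cast at hD this
    nlinarith
  have habs : |D₁ * D₂| ≤ ((max (H * H) E : ℕ) : ℤ) := by
    rw [abs_of_pos (by linarith), ← hE]
    exact_mod_cast le_max_right _ _
  obtain ⟨q, hq1, hq2, P, Q, hP, hQ, hPQ⟩ := lift (U := D₁ * D₂) (V := D₁ * D₂) (n := 2 ^ m)
    (B := max (H * H) E) hb hx hy (by linear_combination (D₁ * D₂) * hxy) (le_max_left _ _) habs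
    habs hmax hn
  have hqm : q < 2 ^ m := by
    calc q ≤ 5 ^ (k + l) := hq2
      _ ≤ 5 ^ (k + l + 1) * g := by
        rw [pow_succ]
        have : 1 ≤ 5 ^ (k + l) := Nat.one_le_pow _ _ (by norm_num)
        nlinarith
      _ < 2 ^ m := hn
  have hb0 : (b : ℚ) ≠ 0 := by exact_mod_cast (by omega : b ≠ 0)
  have hirr := irr_inv hb hodd hq1 hqm
  -- the product over the rational numbers
  have hprod : (P.map (Int.castRingHom ℚ)) * (Q.map (Int.castRingHom ℚ)) =
      C (((D₁ * D₂ : ℤ) : ℚ) * (b : ℚ) ^ (2 ^ m)) *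
        (X ^ q - C (-(((b : ℚ)⁻¹) ^ (2 ^ m)))) := by
    rw [← Polynomial.map_mul, hPQ]
    simp only [Polynomial.map_add, Polynomial.map_mul, Polynomial.map_pow, Polynomial.map_C,
      Polynomial.map_X]
    rw [mul_sub, ← C_mul]
    have e1 : ((D₁ * D₂ : ℤ) : ℚ) * (b : ℚ) ^ (2 ^ m) * -(((b : ℚ)⁻¹) ^ (2 ^ m)) =
        -((D₁ * D₂ : ℤ) : ℚ) := by
      rw [inv_pow]
      field_simp
    rw [e1]
    simp only [eq_intCast, Int.cast_mul, Int.cast_pow, Int.cast_natCast, C_neg]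
    ring
  have hirr2 : Irreducible ((P.map (Int.castRingHom ℚ)) * (Q.map (Int.castRingHom ℚ))) := by
    rw [hprod]
    refine (irreducible_isUnit_mul (isUnit_C.2 (IsUnit.mk0 _ ?_))).2 hirr
    apply mul_ne_zero
    · have : D₁ * D₂ ≠ 0 := by intro h; rw [h] at hD1; norm_num at hD1
      exact_mod_cast this
    · exact pow_ne_zero _ hb0
  rcases (irreducible_mul_iff.1 hirr2) with ⟨_, h2⟩ | ⟨_, h2⟩
  · -- `Q` is a constant
    right; left
    refine const_factor (P := Q) (Q := P) (E := D₂) (D := D₁ * D₂) (q := q) hq1 (by linarith)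
      (by ring) (natDegree_eq_zero_of_isUnit h2) hQ (by rw [mul_comm Q P, hPQ])
  · left
    exact const_factor (P := P) (Q := Q) (E := D₁) (D := D₁ * D₂) (q := q) hq1 (by linarith)
      rfl (natDegree_eq_zero_of_isUnit h2) hP hPQ

end Pool.Agent.Helper53.FF
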