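import Mathlib
import Pool.Agent.Helper53.CD.Digits
import Pool.Agent.Helper53.FF.MainF

set_option autoImplicit false

namespace Pool.Agent.Helper53.FF

open Finset Pool.Agent.Helper53.CD

/-- numbers with few nonzero digits -/
theorem few_of_digits {b k : ℕ} (hb : 2 ≤ b) {x : ℤ} (h : FewDigits b k x) : Few b k (b - 1) x := by
  classical
  have h0 : Few b k (b - 1) (1 * x) := by
    apply few_of_natAbs
    obtain ⟨N, hN⟩ := exists_pow_gt hb x.natAbs
    refine ⟨(range N).filter (fun i => dig b x i ≠ 0), fun i => (dig b x i : ℤ), ?_, ?_, ?_⟩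
    · refine card_le_of_encard ?_ h
      intro i hi
      exact (Finset.mem_filter.1 hi).2
    · intro i _
      have h1 : dig b x i < b := Nat.mod_lt _ (by omega)
      have h2 : |((dig b x i : ℕ) : ℤ)| ≤ ((b - 1 : ℕ) : ℤ) := by
        rw [abs_of_nonneg (by positivity)]
        exact_mod_cast (by omega : dig b x i ≤ b - 1)
      exact h2
    · rw [Finset.sum_filter_of_ne]
      · have h1 := sum_digits (b := b) x.natAbs N
        rw [Nat.mod_eq_of_lt hN] at h1
        rw [one_mul]
        conv_lhs => rw [← h1]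
        push_cast
        apply Finset.sum_congr rfl
        intro i _
        simp [dig]
      · intro i _ h2 h3
        apply h2
        simp only
        rw [h3]; simp
  rwa [one_mul] at h0

/-- numbers whose digits are periodic up to few changes -/
theorem few_of_changes {b k R : ℕ} (hb : 2 ≤ b) (hR : 1 ≤ R) {x : ℤ} (h : FewChanges b R k x) :
    Few b (k + min k R) (b - 1) (((b : ℤ) ^ R - 1) * x) := by
  classical
  apply few_of_natAbs
  obtain ⟨N, hN⟩ := exists_pow_gt hb x.natAbs
  set d : ℕ → ℕ := fun i => dig b x i with hd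
  have hd0 : ∀ i, N ≤ i → d i = 0 := fun i hi => dig_zero hb hN hi
  have hdb : ∀ i, d i ≤ b - 1 := by
    intro i
    have h1 : dig b x i < b := Nat.mod_lt _ (by omega)
    simp only [hd]
    omega
  set c : ℕ → ℤ := fun i => if i < R then -(d i : ℤ) else (d (i - R) : ℤ) - d i with hc
  set Low : Finset ℕ := (range R).filter (fun i => d i ≠ 0) with hLow
  set Ch : Finset ℕ := (range N).filter (fun i => d i ≠ d (i + R)) with hCh
  have hChk : Ch.card ≤ k := by
    refine card_le_of_encard ?_ h
    intro i hi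
    exact (Finset.mem_filter.1 hi).2
  have hex : ∀ i ∈ Low, ∃ l ∈ Ch, l % R = i := by
    intro i hi
    rw [hLow, Finset.mem_filter, Finset.mem_range] at hi
    by_contra hcon
    push Not at hcon
    have h1 : ∀ q, d (i + q * R) = d i := by
      intro q
      induction q with
      | zero => simp
      | succ q ih =>
        by_contra hne
        have h2 : i + q * R ∈ Ch := by
          rw [hCh, Finset.mem_filter, Finset.mem_range]
          constructor
          · by_contra hge
            push Not at hge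
            rw [hd0 _ hge] at ih
            exact hi.2 ih.symm
          · rw [ih]
            intro h3
            apply hne
            rw [h3]
            congr 1
            ring
        apply hcon _ h2
        rw [Nat.add_mul_mod_self_right, Nat.mod_eq_of_lt hi.1]
    have h4 := h1 N
    rw [hd0 _ (by nlinarith)] at h4
    exact hi.2 h4.symm
  choose! f hf1 hf2 using hex
  have hLowk : Low.card ≤ k := by
    refine (Finset.card_le_card_of_injOn f (fun i hi => hf1 i hi) ?_).trans hChk
    intro i hi j hj hij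
    rw [← hf2 i hi, ← hf2 j hj, hij]
  have hLowR : Low.card ≤ R := by
    refine (Finset.card_filter_le _ _).trans (by simp)
  refine ⟨(range (N + R)).filter (fun i => c i ≠ 0), c, ?_, ?_, ?_⟩
  · have hsub : (range (N + R)).filter (fun i => c i ≠ 0) ⊆ Low ∪ Ch.image (· + R) := by
      intro i hi
      rw [Finset.mem_filter, Finset.mem_range] at hi
      rw [Finset.mem_union]
      by_cases hiR : i < R
      · left
        rw [hLow, Finset.mem_filter, Finset.mem_range]
        refine ⟨hiR, ?_⟩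
        intro h0
        apply hi.2
        simp [hc, hiR, h0]
      · right
        rw [Finset.mem_image]
        refine ⟨i - R, ?_, by omega⟩
        rw [hCh, Finset.mem_filter, Finset.mem_range]
        refine ⟨by omega, ?_⟩
        intro h0
        apply hi.2
        rw [Nat.sub_add_cancel (by omega)] at h0
        simp [hc, hiR, h0]
    calc _ ≤ (Low ∪ Ch.image (· + R)).card := Finset.card_le_card hsub
      _ ≤ Low.card + (Ch.image (· + R)).card := Finset.card_union_le _ _
      _ ≤ min k R + k := Nat.add_le_add (le_min hLowk hLowR) (Finset.card_image_le.trans hChk)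
      _ = k + min k R := by ring
  · intro i _
    simp only [hc]
    have h1 : (d i : ℤ) ≤ ((b - 1 : ℕ) : ℤ) := by exact_mod_cast hdb i
    have h2 : (d (i - R) : ℤ) ≤ ((b - 1 : ℕ) : ℤ) := by exact_mod_cast hdb (i - R)
    have h3 : (0 : ℤ) ≤ d i := by positivity
    have h4 : (0 : ℤ) ≤ d (i - R) := by positivity
    split_ifs
    · rw [abs_neg, abs_of_nonneg h3]; exact h1
    · rw [abs_le]; constructor <;> linarith
  · rw [Finset.sum_filter_of_ne]
    · have h1 := sum_digits (b := b) x.natAbs N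
      rw [Nat.mod_eq_of_lt hN] at h1
      have h1' : (x.natAbs : ℤ) = ∑ i ∈ range N, (d i : ℤ) * (b : ℤ) ^ i := by
        conv_lhs => rw [← h1]
        push_cast
        apply Finset.sum_congr rfl
        intro i _
        simp [hd, dig]
      have h2' : (x.natAbs : ℤ) = ∑ i ∈ range (N + R), (d i : ℤ) * (b : ℤ) ^ i := by
        rw [h1', Finset.sum_range_add]
        have : ∑ i ∈ range R, (d (N + i) : ℤ) * (b : ℤ) ^ (N + i) = 0 := by
          apply Finset.sum_eq_zero
          intro i _
          rw [hd0 _ (by omega)]; simp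
        rw [this, add_zero]
      have h3 : ∑ i ∈ range (N + R), c i * (b : ℤ) ^ i =
          ∑ i ∈ range (N + R), (if i < R then (0 : ℤ) else (d (i - R) : ℤ) * (b : ℤ) ^ i) -
            ∑ i ∈ range (N + R), (d i : ℤ) * (b : ℤ) ^ i := by
        rw [← Finset.sum_sub_distrib]
        apply Finset.sum_congr rfl
        intro i _
        simp only [hc]
        split_ifs <;> ring
      have h4 : ∑ i ∈ range (N + R), (if i < R then (0 : ℤ) else (d (i - R) : ℤ) * (b : ℤ) ^ i) =
          (b : ℤ) ^ R * x.natAbs := by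
        rw [add_comm N R, Finset.sum_range_add, h1', Finset.mul_sum]
        have : ∑ i ∈ range R, (if i < R then (0 : ℤ) else (d (i - R) : ℤ) * (b : ℤ) ^ i) = 0 := by
          apply Finset.sum_eq_zero
          intro i hi
          rw [if_pos (Finset.mem_range.1 hi)]
        rw [this, zero_add]
        apply Finset.sum_congr rfl
        intro i _
        rw [if_neg (by omega), Nat.add_sub_cancel_left, pow_add]
        ring
      rw [h3, h4, ← h2']
      ring
    · intro i _ h2 h3
      apply h2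
      rw [h3]; simp

lemma two_not_pow : ∀ p : ℕ, p.Prime → p ≠ 2 → ∀ c : ℕ, c ^ p ≠ 2 := by
  intro p hp _ c hc
  have h2 : 2 ≤ c := by
    by_contra h
    have : c = 0 ∨ c = 1 := by omega
    rcases this with rfl | rfl
    · rw [zero_pow hp.ne_zero] at hc; omega
    · rw [one_pow] at hc; omega
  have h3 : 2 ^ 2 ≤ c ^ p := (Nat.pow_le_pow_left h2 2).trans (Nat.pow_le_pow_right (by omega) hp.two_le)
  omega

/-- a sum of no terms vanishes -/
lemma one_le_of_few {b k H : ℕ} {z : ℤ} (h : Few b k H z) (hz : z ≠ 0) : 1 ≤ k := by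
  obtain ⟨s, c, h1, _, h3⟩ := h
  by_contra hk
  have h4 : s = ∅ := by rw [← Finset.card_eq_zero]; omega
  rw [h4, Finset.sum_empty] at h3
  exact hz h3

lemma mul_add_two_lt {k l : ℕ} (hk : 1 ≤ k) (hl : 1 ≤ l) : k * l + 2 < 2 ^ (k + l) := by
  have h1 : ∀ n : ℕ, 1 ≤ n → n + 1 ≤ 2 ^ n := by
    intro n hn
    induction n, hn using Nat.le_induction with
    | base => norm_num
    | succ n hn ih => rw [pow_succ]; omega
  have h2 := h1 k hk
  have h3 := h1 l hl
  have h4 : (k + 1) * (l + 1) ≤ 2 ^ k * 2 ^ l := Nat.mul_le_mul h2 h3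
  rw [pow_add]
  nlinarith

lemma pow_bound (K : ℕ) (hK : 2 ≤ K) : 5 ^ (K + 1) * K < 8 ^ (K + 1) := by
  induction K, hK using Nat.le_induction with
  | base => norm_num
  | succ n hn ih =>
    calc 5 ^ (n + 1 + 1) * (n + 1) = 5 * (5 ^ (n + 1) * (n + 1)) := by rw [pow_succ 5 (n + 1)]; ring
      _ ≤ 8 * (5 ^ (n + 1) * n) := by
        have h1 : 5 * (n + 1) ≤ 8 * n := by omega
        calc 5 * (5 ^ (n + 1) * (n + 1)) = 5 ^ (n + 1) * (5 * (n + 1)) := by ring
          _ ≤ 5 ^ (n + 1) * (8 * n) := Nat.mul_le_mul_left _ h1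
          _ = 8 * (5 ^ (n + 1) * n) := by ring
      _ < 8 * 8 ^ (n + 1) := by omega
      _ = 8 ^ (n + 1 + 1) := by rw [pow_succ 8 (n + 1)]; ring

/-- factors of a Fermat number which are sums of few signed powers of two -/
theorem fermat_signed {m k l : ℕ} {x y : ℤ} (hx1 : 1 < x) (hy1 : 1 < y)
    (hxy : x * y = 2 ^ (2 ^ m) + 1) (hx : Few 2 k 1 x) (hy : Few 2 l 1 y) :
    m < 3 * (k + l + 1) := by
  have hk := one_le_of_few hx (by omega)
  have hl := one_le_of_few hy (by omega)
  have h1 := mul_add_two_lt hk hl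
  have h2 := fermat (b := 2) (m := m) (k := k) (l := l) (H := 1) (g := k + l) (x := x) (y := y)
    (D₁ := 1) (D₂ := 1) le_rfl two_not_pow le_rfl le_rfl (by rwa [one_mul]) (by rwa [one_mul])
    (by exact_mod_cast hxy) (by simpa using h1) (by simpa using (by exact_mod_cast h1))
  rcases h2 with h2 | h2 | h2
  · have := Int.le_of_dvd (by norm_num) h2
    omega
  · have := Int.le_of_dvd (by norm_num) h2
    omega
  · have h3 := pow_bound (k + l) (by omega)
    have h4 : 2 ^ m < 2 ^ (3 * (k + l + 1)) := by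
      calc 2 ^ m ≤ 5 ^ (k + l + 1) * (k + l) := h2
        _ < 8 ^ (k + l + 1) := h3
        _ = 2 ^ (3 * (k + l + 1)) := by rw [pow_mul]; norm_num
    exact (Nat.pow_lt_pow_iff_right (by norm_num)).1 h4

/-- a factor `> 1` of a Fermat number divides `2 ^ S - 1` only for `2 ^ (m + 1) ∣ S` -/
lemma dvd_fermat {m S : ℕ} {x : ℤ} (hx : 1 < x) (h : x ∣ 2 ^ (2 ^ m) + 1) (hS : x ∣ 2 ^ S - 1) :
    2 ^ (m + 1) ∣ S := by
  obtain ⟨p, hp, hpx⟩ := Int.exists_prime_and_dvd (n := x) (by
    intro h1
    have : x = 1 ∨ x = -1 := Int.natAbs_eq_iff.1 h1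
    omega)
  have hp' : Nat.Prime p.natAbs := Int.prime_iff_natAbs_prime.1 hp
  have : Fact (p.natAbs.Prime) := ⟨hp'⟩
  have e1 : ((2 : ZMod p.natAbs) ^ (2 ^ m) + 1) = 0 := by
    have h1 : (p.natAbs : ℤ) ∣ 2 ^ (2 ^ m) + 1 := (Int.natAbs_dvd.2 (hpx.trans h))
    have h2 := (ZMod.intCast_zmod_eq_zero_iff_dvd _ _).2 h1
    push_cast at h2
    exact h2
  have e2 : ((2 : ZMod p.natAbs) ^ S - 1) = 0 := by
    have h1 : (p.natAbs : ℤ) ∣ 2 ^ S - 1 := (Int.natAbs_dvd.2 (hpx.trans hS))
    have h2 := (ZMod.intCast_zmod_eq_zero_iff_dvd _ _).2 h1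
    push_cast at h2
    exact h2
  have hne : p.natAbs ≠ 2 := by
    intro h2
    have h3 : ((2 : ℕ) : ZMod p.natAbs) = 0 := by
      rw [ZMod.natCast_eq_zero_iff, h2]
    have h4 : (2 : ZMod p.natAbs) = 0 := by exact_mod_cast h3
    rw [h4, zero_pow (by positivity), zero_add] at e1
    exact one_ne_zero e1
  have hord : orderOf (2 : ZMod p.natAbs) = 2 ^ (m + 1) := by
    apply orderOf_eq_prime_pow
    · intro h1
      have h2 : (1 : ZMod p.natAbs) + 1 = 0 := by rw [← h1] at e1; rw [← e1, h1]
      have h3 : ((2 : ℕ) : ZMod p.natAbs) = 0 := by push_cast; rw [← h2]; norm_num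
      rw [ZMod.natCast_eq_zero_iff] at h3
      exact hne ((Nat.prime_dvd_prime_iff_eq hp' Nat.prime_two).1 h3)
    · have h1 : (2 : ZMod p.natAbs) ^ (2 ^ m) = -1 := by linear_combination e1
      rw [pow_succ, pow_mul, h1]
      norm_num
  rw [← hord]
  apply orderOf_dvd_of_pow_eq_one
  linear_combination e2

/-- factors of a Fermat number with few changes of digits -/
theorem fermat_changes {m k l R S : ℕ} {x y : ℤ} (hR : 1 ≤ R) (hS : 1 ≤ S) (hx1 : 1 < x)
    (hy1 : 1 < y) (hxy : x * y = 2 ^ (2 ^ m) + 1) (hx : FewChanges 2 R k x)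
    (hy : FewChanges 2 S l y) :
    2 ^ m ≤ 5 ^ ((k + min k R) + (l + min l S) + 1) * (R + S + ((k + min k R) + (l + min l S))) := by
  have hx' := few_of_changes (b := 2) le_rfl hR hx
  have hy' := few_of_changes (b := 2) le_rfl hS hy
  have hpow : ∀ R : ℕ, 1 ≤ R → (2 : ℤ) ≤ 2 ^ R := by
    intro R hR
    calc (2 : ℤ) = 2 ^ 1 := by norm_num
      _ ≤ 2 ^ R := pow_le_pow_right₀ (by norm_num) hR
  have hR2 := hpow R hR
  have hS2 := hpow S hS
  have hk := one_le_of_few hx' (by push_cast; intro h; nlinarith)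
  have hl := one_le_of_few hy' (by push_cast; intro h; nlinarith)
  set k' := k + min k R
  set l' := l + min l S
  have h1 := mul_add_two_lt hk hl
  have hbig : ∀ T : ℕ, 2 ^ (m + 1) ∣ T → T ≤ R + S → 1 ≤ T → 2 ^ m ≤ 5 ^ (k' + l' + 1) *
      (R + S + (k' + l')) := by
    intro T hT1 hT2 hT3
    have h2 := Nat.le_of_dvd hT3 hT1
    have h3 : 1 ≤ 5 ^ (k' + l' + 1) := Nat.one_le_pow _ _ (by norm_num)
    rw [pow_succ] at h2
    nlinarith
  have h2 := fermat (b := 2) (m := m) (k := k') (l := l') (H := 1) (g := R + S + (k' + l'))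
    (x := x) (y := y) (D₁ := 2 ^ R - 1) (D₂ := 2 ^ S - 1) le_rfl two_not_pow (by linarith)
    (by linarith) (by simpa using hx') (by simpa using hy') (by exact_mod_cast hxy)
    (by
      rw [mul_one, mul_one, pow_add]
      have h3 : 1 * 2 ^ (k' + l') ≤ 2 ^ (R + S) * 2 ^ (k' + l') :=
        Nat.mul_le_mul_right _ (Nat.one_le_pow _ _ (by norm_num))
      omega)
    (by
      rw [pow_add, pow_add]
      push_cast
      have h3 : ((k' * l' + 2 : ℕ) : ℤ) < 2 ^ (k' + l') := by exact_mod_cast h1
      push_cast at h3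
      have h4 : (2 ^ R - 1 : ℤ) * (2 ^ S - 1) ≤ 2 ^ R * 2 ^ S := by nlinarith
      have h5 : (0 : ℤ) < 2 ^ R * 2 ^ S := by positivity
      have h6 : (0 : ℤ) < (k' : ℤ) * l' + 2 := by positivity
      calc ((k' : ℤ) * l' + 2) * ((2 ^ R - 1) * (2 ^ S - 1)) ≤
            ((k' : ℤ) * l' + 2) * (2 ^ R * 2 ^ S) := mul_le_mul_of_nonneg_left h4 h6.le
        _ < 2 ^ (k' + l') * (2 ^ R * 2 ^ S) := mul_lt_mul_of_pos_right h3 h5
        _ = 2 ^ R * 2 ^ S * 2 ^ (k' + l') := by ring)
  rcases h2 with h2 | h2 | h2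
  · exact hbig S (dvd_fermat hx1 ⟨y, hxy.symm⟩ h2) (by omega) hS
  · exact hbig R (dvd_fermat hy1 ⟨x, by rw [← hxy]; ring⟩ h2) (by omega) hR
  · exact h2

end Pool.Agent.Helper53.FF
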